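import Mathlib
import Pool.Agent.Q296.UltraExp

namespace Pool.Agent.Results.MP_846ee0_co.NeverEqual

open Pool.Agent.Q296

/-- the tower starting at `a` -/
def t (a : ℕ) : ℕ → ℕ
  | 0 => a
  | k + 1 => 2 ^ t a k

lemma t_lt (a k : ℕ) : t a k < t a (k + 1) := Nat.lt_two_pow_self

lemma t_strictMono (a : ℕ) : StrictMono (t a) := strictMono_nat_of_lt_succ (t_lt a)

lemma two_mul_t (k : ℕ) : 2 * t 4 k ≤ t 8 k ∧ 2 * t 8 k ≤ t 4 (k + 1) := by
  have h4 : ∀ k, 2 ≤ t 4 k := fun k =>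
    le_trans (by norm_num [t]) ((t_strictMono 4).monotone (Nat.zero_le k))
  have h8 : ∀ k, 2 ≤ t 8 k := fun k =>
    le_trans (by norm_num [t]) ((t_strictMono 8).monotone (Nat.zero_le k))
  induction k with
  | zero => norm_num [t]
  | succ k ih =>
    obtain ⟨ih1, ih2⟩ := ih
    constructor
    · calc 2 * t 4 (k + 1) ≤ t 4 (k + 1) * t 4 (k + 1) := Nat.mul_le_mul_right _ (h4 _)
        _ = 2 ^ (2 * t 4 k) := by
          show 2 ^ t 4 k * 2 ^ t 4 k = _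
          rw [← pow_add]; congr 1; ring
        _ ≤ 2 ^ t 8 k := Nat.pow_le_pow_right (by norm_num) ih1
    · calc 2 * t 8 (k + 1) ≤ t 8 (k + 1) * t 8 (k + 1) := Nat.mul_le_mul_right _ (h8 _)
        _ = 2 ^ (2 * t 8 k) := by
          show 2 ^ t 8 k * 2 ^ t 8 k = _
          rw [← pow_add]; congr 1; ring
        _ ≤ 2 ^ t 4 (k + 1) := Nat.pow_le_pow_right (by norm_num) ih2

lemma sq1 (k : ℕ) : t 4 (k + 1) * t 4 (k + 1) ≤ t 8 (k + 1) := by
  calc t 4 (k + 1) * t 4 (k + 1) = 2 ^ (2 * t 4 k) := by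
          show 2 ^ t 4 k * 2 ^ t 4 k = _
          rw [← pow_add]; congr 1; ring
        _ ≤ 2 ^ t 8 k := Nat.pow_le_pow_right (by norm_num) (two_mul_t k).1

lemma sq2 (k : ℕ) : t 8 (k + 1) * t 8 (k + 1) ≤ t 4 (k + 2) := by
  calc t 8 (k + 1) * t 8 (k + 1) = 2 ^ (2 * t 8 k) := by
          show 2 ^ t 8 k * 2 ^ t 8 k = _
          rw [← pow_add]; congr 1; ring
        _ ≤ 2 ^ t 4 (k + 1) := Nat.pow_le_pow_right (by norm_num) (two_mul_t k).2

/-- For `m` large compared to `n`, the two towers do not both meet `(m, m^n]`. -/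
lemma not_both (n m : ℕ) (hm1 : 2 ^ (n * n) ≤ m) (hm2 : 65536 ≤ m) (i j : ℕ)
    (hi1 : m < t 4 i) (hi2 : t 4 i ≤ m ^ n) (hj1 : m < t 8 j) (hj2 : t 8 j ≤ m ^ n) : False := by
  have hn : n ≠ 0 := by
    rintro rfl
    simp at hi2
    omega
  -- i ≥ 3, j ≥ 2
  have hi3 : 3 ≤ i := by
    by_contra hc
    have : t 4 i ≤ t 4 2 := (t_strictMono 4).monotone (by omega)
    norm_num [t] at this
    omega
  have hj3 : 2 ≤ j := by
    by_contra hc
    have : t 8 j ≤ t 8 1 := (t_strictMono 8).monotone (by omega)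
    norm_num [t] at this
    omega
  obtain ⟨a, rfl⟩ : ∃ a, i = a + 3 := ⟨i - 3, by omega⟩
  obtain ⟨b, rfl⟩ : ∃ b, j = b + 2 := ⟨j - 2, by omega⟩
  have h1 : t 4 (a + 2) < n * t 8 (b + 1) := by
    have : 2 ^ t 4 (a + 2) < 2 ^ (n * t 8 (b + 1)) := by
      calc 2 ^ t 4 (a + 2) = t 4 (a + 3) := rfl
        _ ≤ m ^ n := hi2
        _ < (t 8 (b + 2)) ^ n := Nat.pow_lt_pow_left hj1 hn
        _ = 2 ^ (n * t 8 (b + 1)) := by
          show (2 ^ t 8 (b + 1)) ^ n = _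
          rw [← pow_mul, mul_comm]
    exact (Nat.pow_lt_pow_iff_right (by norm_num)).mp this
  have h2 : t 8 (b + 1) < n * t 4 (a + 2) := by
    have : 2 ^ t 8 (b + 1) < 2 ^ (n * t 4 (a + 2)) := by
      calc 2 ^ t 8 (b + 1) = t 8 (b + 2) := rfl
        _ ≤ m ^ n := hj2
        _ < (t 4 (a + 3)) ^ n := Nat.pow_lt_pow_left hi1 hn
        _ = 2 ^ (n * t 4 (a + 2)) := by
          show (2 ^ t 4 (a + 2)) ^ n = _
          rw [← pow_mul, mul_comm]
    exact (Nat.pow_lt_pow_iff_right (by norm_num)).mp this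
  rcases le_or_gt (a + 2) (b + 1) with hab | hab
  · -- a + 2 ≤ b + 1
    have h3 : t 4 (a + 2) ≤ t 4 (b + 1) := (t_strictMono 4).monotone hab
    have h4 : t 4 (a + 2) * t 4 (b + 1) ≤ t 8 (b + 1) :=
      le_trans (Nat.mul_le_mul_right _ h3) (sq1 b)
    have h5 : t 4 (b + 1) < n := by
      by_contra hc
      push Not at hc
      have : n * t 4 (a + 2) ≤ t 4 (a + 2) * t 4 (b + 1) := by
        rw [mul_comm]; exact Nat.mul_le_mul_left _ hc
      omega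
    have h6 : t 8 (b + 1) < n * n := by
      calc t 8 (b + 1) < n * t 4 (a + 2) := h2
        _ ≤ n * n := Nat.mul_le_mul_left _ (by omega)
    have h7 : t 8 (b + 2) < 2 ^ (n * n) := Nat.pow_lt_pow_right (by norm_num) h6
    omega
  · -- b + 1 ≤ a + 1
    have h3 : t 8 (b + 1) ≤ t 8 (a + 1) := (t_strictMono 8).monotone (by omega)
    have h4 : t 8 (b + 1) * t 8 (a + 1) ≤ t 4 (a + 2) :=
      le_trans (Nat.mul_le_mul_right _ h3) (sq2 a)
    have h5 : t 8 (a + 1) < n := by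
      by_contra hc
      push Not at hc
      have : n * t 8 (b + 1) ≤ t 8 (b + 1) * t 8 (a + 1) := by
        rw [mul_comm]; exact Nat.mul_le_mul_left _ hc
      omega
    have h6 : t 4 (a + 2) < n * n := by
      calc t 4 (a + 2) < n * t 8 (b + 1) := h1
        _ ≤ n * n := Nat.mul_le_mul_left _ (by omega)
    have h7 : t 4 (a + 3) < 2 ^ (n * n) := Nat.pow_lt_pow_right (by norm_num) h6
    omega

/-- the even blocks of the tower -/
def A (a : ℕ) : Set ℕ+ := {x | ∃ k, Even k ∧ t a k ≤ (x : ℕ) ∧ (x : ℕ) < t a (k + 1)}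

lemma mem_A_iff (a k : ℕ) (x : ℕ+) (h1 : t a k ≤ (x : ℕ)) (h2 : (x : ℕ) < t a (k + 1)) :
    x ∈ A a ↔ Even k := by
  constructor
  · rintro ⟨j, hj, h3, h4⟩
    have h5 : j < k + 1 := (t_strictMono a).lt_iff_lt.mp (lt_of_le_of_lt h3 h2)
    have h6 : k < j + 1 := (t_strictMono a).lt_iff_lt.mp (lt_of_le_of_lt h1 h4)
    obtain rfl : j = k := by omega
    exact hj
  · intro h
    exact ⟨k, h, h1, h2⟩

/-- If the tower does not meet `(m, m^n]` then `m^n` has the colour of `m` and `n^m` the other. -/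
lemma flip (a : ℕ) (n m : ℕ+) (hn : 2 ≤ (n : ℕ)) (hnm : (n : ℕ) ≤ m) (ham : a ≤ (m : ℕ))
    (hno : ∀ k, ¬ ((m : ℕ) < t a k ∧ t a k ≤ (m : ℕ) ^ (n : ℕ))) :
    (m ^ (n : ℕ) ∈ A a ↔ m ∈ A a) ∧ (n ^ (m : ℕ) ∈ A a ↔ m ∉ A a) := by
  -- block of m
  obtain ⟨k, hk1, hk2⟩ : ∃ k, t a k ≤ (m : ℕ) ∧ (m : ℕ) < t a (k + 1) := by
    have hex : ∃ k, (m : ℕ) < t a k := by
      have h : ∀ k, k ≤ t a k := fun k => (t_strictMono a).le_apply
      exact ⟨m + 1, lt_of_lt_of_le (Nat.lt_succ_self _) (h _)⟩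
    classical
    have hs := Nat.find_spec hex
    have h0 : Nat.find hex ≠ 0 := by
      intro h
      rw [h] at hs
      simp only [t] at hs
      omega
    obtain ⟨k, hk⟩ := Nat.exists_eq_succ_of_ne_zero h0
    refine ⟨k, ?_, ?_⟩
    · have := Nat.find_min hex (m := k) (by omega)
      omega
    · rw [hk] at hs
      exact hs
  have hmn : (m : ℕ) ^ (n : ℕ) < t a (k + 1) := by
    by_contra hc
    exact hno (k + 1) ⟨hk2, not_lt.mp hc⟩
  have hmle : (m : ℕ) ≤ (m : ℕ) ^ (n : ℕ) := Nat.le_self_pow (by omega) _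
  have hA : m ∈ A a ↔ Even k := mem_A_iff a k m hk1 hk2
  have hB : m ^ (n : ℕ) ∈ A a ↔ Even k := by
    apply mem_A_iff
    · rw [PNat.pow_coe]; omega
    · rw [PNat.pow_coe]; exact hmn
  have hC : n ^ (m : ℕ) ∈ A a ↔ Even (k + 1) := by
    apply mem_A_iff
    · rw [PNat.pow_coe]
      calc t a (k + 1) = 2 ^ t a k := rfl
        _ ≤ 2 ^ (m : ℕ) := Nat.pow_le_pow_right (by norm_num) hk1
        _ ≤ (n : ℕ) ^ (m : ℕ) := Nat.pow_le_pow_left hn _
    · rw [PNat.pow_coe]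
      have h1 : (n : ℕ) * m < t a (k + 1) := by
        calc (n : ℕ) * m ≤ m * m := Nat.mul_le_mul_right _ hnm
          _ = (m : ℕ) ^ 2 := by ring
          _ ≤ (m : ℕ) ^ (n : ℕ) := Nat.pow_le_pow_right m.pos hn
          _ < _ := hmn
      calc (n : ℕ) ^ (m : ℕ) ≤ (2 ^ (n : ℕ)) ^ (m : ℕ) :=
            Nat.pow_le_pow_left Nat.lt_two_pow_self.le _
        _ = 2 ^ ((n : ℕ) * m) := by rw [← pow_mul]
        _ < 2 ^ t a (k + 1) := Nat.pow_lt_pow_right (by norm_num) h1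
        _ = t a (k + 1 + 1) := rfl
  refine ⟨hB.trans hA.symm, ?_⟩
  rw [hC, hA, Nat.even_add_one]

/-- The two exponentiations `E_1(p,q)` and `E_2(p,q)` never coincide on nonprincipal
ultrafilters. -/
theorem result : ∀ p q : Ultrafilter ℕ+, Nonprincipal p → Nonprincipal q → E1 p q ≠ E2 p q := by
  intro p q hp hq heq
  have key : ∀ n : ℕ+, 2 ≤ (n : ℕ) →
      (∀ᶠ m : ℕ+ in (q : Filter ℕ+), ∀ k, ¬ ((m : ℕ) < t 4 k ∧ t 4 k ≤ (m : ℕ) ^ (n : ℕ))) ∨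
      (∀ᶠ m : ℕ+ in (q : Filter ℕ+), ∀ k, ¬ ((m : ℕ) < t 8 k ∧ t 8 k ≤ (m : ℕ) ^ (n : ℕ))) := by
    intro n _
    rw [← Ultrafilter.eventually_or]
    filter_upwards [hq.eventually_ge (2 ^ ((n : ℕ) * n)), hq.eventually_ge 65536] with m h1 h2
    by_contra hc
    push Not at hc
    obtain ⟨⟨i, hi1, hi2⟩, j, hj1, hj2⟩ := hc
    exact not_both n m h1 h2 i j hi1 hi2 hj1 hj2
  have main : ∀ a : ℕ, (∀ᶠ n : ℕ+ in (p : Filter ℕ+),
      ∀ᶠ m : ℕ+ in (q : Filter ℕ+), ∀ k, ¬ ((m : ℕ) < t a k ∧ t a k ≤ (m : ℕ) ^ (n : ℕ))) →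
      False := by
    intro a hno
    have h1 : ∀ᶠ n : ℕ+ in (p : Filter ℕ+), ∀ᶠ m : ℕ+ in (q : Filter ℕ+),
        (m ^ (n : ℕ) ∈ A a ↔ m ∈ A a) ∧ (n ^ (m : ℕ) ∈ A a ↔ m ∉ A a) := by
      filter_upwards [hno, hp.eventually_ge 2] with n hn h2
      filter_upwards [hn, hq.eventually_ge n, hq.eventually_ge a] with m hm h3 h4
      exact flip a n m h2 h3 h4 hm
    by_cases hq' : A a ∈ q
    · have h2 : A a ∈ E2 p q := by
        rw [mem_E2]
        filter_upwards [h1] with n hn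
        filter_upwards [hn, hq'] with m hm hmA
        exact hm.1.mpr hmA
      rw [← heq, mem_E1] at h2
      obtain ⟨n, hn1, hn2⟩ := (h1.and h2).exists
      obtain ⟨m, ⟨hm1, hm2⟩, hm3⟩ := ((hn1.and hn2).and hq').exists
      exact (hm1.2.mp hm2) hm3
    · have hq'' : ∀ᶠ m : ℕ+ in (q : Filter ℕ+), m ∉ A a := Ultrafilter.eventually_not.mpr hq'
      have h2 : A a ∈ E1 p q := by
        rw [mem_E1]
        filter_upwards [h1] with n hn
        filter_upwards [hn, hq''] with m hm hmA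
        exact hm.2.mpr hmA
      rw [heq, mem_E2] at h2
      obtain ⟨n, hn1, hn2⟩ := (h1.and h2).exists
      obtain ⟨m, ⟨hm1, hm2⟩, hm3⟩ := ((hn1.and hn2).and hq'').exists
      exact hm3 (hm1.1.mp hm2)
  have hor : (∀ᶠ n : ℕ+ in (p : Filter ℕ+),
      ∀ᶠ m : ℕ+ in (q : Filter ℕ+), ∀ k, ¬ ((m : ℕ) < t 4 k ∧ t 4 k ≤ (m : ℕ) ^ (n : ℕ))) ∨
      (∀ᶠ n : ℕ+ in (p : Filter ℕ+),
      ∀ᶠ m : ℕ+ in (q : Filter ℕ+), ∀ k, ¬ ((m : ℕ) < t 8 k ∧ t 8 k ≤ (m : ℕ) ^ (n : ℕ))) := by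
    rw [← Ultrafilter.eventually_or]
    filter_upwards [hp.eventually_ge 2] with n hn
    exact key n hn
  rcases hor with h | h
  · exact main 4 h
  · exact main 8 h

end Pool.Agent.Results.MP_846ee0_co.NeverEqual
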